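import Mathlib
import Pool.Agent.Lib.MP_de94ef_pr.Tail

open MeasureTheory ProbabilityTheory Filter

namespace Pool.Agent.Results.MP_de94ef_pr.Tail

open Pool.Agent.Lib.MP_de94ef_pr

/-- Two-sided deviation bound around the time constant, with a logarithmic gain in the exponent
over the whole range: `P(|T(0,v) - mu(v)| ≥ s) ≤ C exp(- c s^2 log(n/s) / n)`, `n = |v|`. -/
theorem result : ∃ c C : ℝ, 0 < c ∧
    ∀ (Ω : Type) [MeasureSpace Ω] [IsProbabilityMeasure (volume : Measure Ω)]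
    (X : Sym2 (ℤ × ℤ) → Ω → ℝ) (T : Ω → ℤ × ℤ → ℝ) (μ : ℝ × ℝ → ℝ),
    (∀ e, Measurable (X e)) →
    iIndepFun X (volume : Measure Ω) →
    (∀ e, Measure.map (X e) (volume : Measure Ω) = expMeasure 1) →
    (∀ ω v, T ω v = sInf {s : ℝ | ∃ n : ℕ, ∃ p : ℕ → ℤ × ℤ, p 0 = 0 ∧ p n = v ∧
        (∀ i < n, |(p (i + 1)).1 - (p i).1| + |(p (i + 1)).2 - (p i).2| = 1) ∧
        s = ∑ i ∈ Finset.range n, X s(p i, p (i + 1)) ω}) →
    (∀ (x : ℝ × ℝ) (c : ℝ), 0 ≤ c → μ (c • x) = c * μ x) →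
    Continuous μ →
    (∀ z : ℤ × ℤ, ∀ᵐ ω ∂(volume : Measure Ω),
        Tendsto (fun n : ℕ => T ω ((n : ℤ) • z) / (n : ℝ)) atTop
          (nhds (μ ((z.1 : ℝ), (z.2 : ℝ))))) →
    ∀ (v : ℤ × ℤ) (n s : ℝ), n = |(v.1 : ℝ)| + |(v.2 : ℝ)| → 0 < s → s ≤ n →
      ((volume : Measure Ω) {ω | s ≤ |T ω v - μ ((v.1 : ℝ), (v.2 : ℝ))|}).toReal ≤
        C * Real.exp (-(c * (s ^ 2 * Real.log (n / s) / n))) := by
  obtain ⟨c, C, hc, hC, h⟩ := tail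
  refine ⟨c, C, hc, fun Ω _ _ X T μ h1 h2 h3 h4 h5 h6 h7 v n s hn hs _ => ?_⟩
  obtain ⟨Φ, hΦ, ha, hμ⟩ := transfer h1 h2 h3 h4 h5 h6 h7
  refine ENNReal.toReal_le_of_le_ofReal (by positivity) ?_
  have e1 : {ω | s ≤ |T ω v - μ ((v.1 : ℝ), (v.2 : ℝ))|} =ᵐ[volume]
      Φ ⁻¹' {ω | s ≤ |TT ω 0 v - μ (iv v)|} := by
    filter_upwards [ha] with ω hω
    change (s ≤ |T ω v - _|) = (s ≤ |TT (Φ ω) 0 v - _|)
    rw [hω v, iv]
  rw [measure_congr e1, hΦ.measure_preimage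
    (measurableSet_le measurable_const (by fun_prop)).nullMeasurableSet, hn]
  exact h μ hμ v s hs

end Pool.Agent.Results.MP_de94ef_pr.Tail
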